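import Pool.Prelude.Def_H_3587d628
import Pool.Agent.Lib.MP_89b4f4_co.Reduce

set_option autoImplicit false

namespace Pool.Agent.Results.MP_89b4f4_co.GIComplete

/-- The graph on the row indices of a Boolean matrix: distinct `i`, `j` are adjacent when the
entry `(i, j)` or the entry `(j, i)` is true. -/
def graphOf (m : List (List Bool)) : SimpleGraph (Fin m.length) :=
  SimpleGraph.fromRel fun i j => (m.getD i []).getD j false = true

/-- `m` is a square matrix, it is the adjacency matrix of its graph, and this graph is the
comparability graph of a partial order that is the intersection of three linear orders. -/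
def InThreeDim (m : List (List Bool)) : Prop :=
  (∀ row ∈ m, row.length = m.length) ∧
  (∀ i j : Fin m.length, (m.getD i []).getD j false = true ↔ (graphOf m).Adj i j) ∧
  ∃ (P : PartialOrder (Fin m.length)) (L : Fin 3 → LinearOrder (Fin m.length)),
    (∀ u v, (graphOf m).Adj u v ↔ P.lt u v ∨ P.lt v u) ∧
      ∀ u v, P.le u v ↔ ∀ i, (L i).le u v

/-- Graph isomorphism reduces in polynomial time to isomorphism of comparability graphs of
dimension at most three. -/
theorem result :
    ∃ f : List (List Bool) × List (List Bool) → List (List Bool) × List (List Bool),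
      N68a2faeb.IsPolyTime f ∧
      ∀ p, InThreeDim (f p).1 ∧ InThreeDim (f p).2 ∧
        (Nonempty (graphOf p.1 ≃g graphOf p.2) ↔
          Nonempty (graphOf (f p).1 ≃g graphOf (f p).2)) := by
  open Pool.Agent.Lib.MP_89b4f4_co in
  exact ⟨red, red_poly, fun p =>
    ⟨⟨(outM_spec _ _).2.1, (outM_spec _ _).2.2, outM_dim _ _ (Nat.le_add_right _ _)⟩,
      ⟨(outM_spec _ _).2.1, (outM_spec _ _).2.2, outM_dim _ _ (Nat.le_add_left _ _)⟩,
      red_iso _ (Nat.le_add_left _ _) _ _⟩⟩

end Pool.Agent.Results.MP_89b4f4_co.GIComplete
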