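import Pool.Agent.Lib.MP_89b4f4_co.LatB

set_option autoImplicit false

namespace Pool.Agent.Results.MP_89b4f4_co.Lattice

universe u

/-- Every finite group is the automorphism group of a finite lattice whose order is the
intersection of three linear orders. -/
theorem result (G : Type u) [Group G] [Finite G] :
    ∃ (Λ : Type) (_ : Finite Λ) (_ : Lattice Λ) (L : Fin 3 → LinearOrder Λ),
      (∀ x y : Λ, x ≤ y ↔ ∀ i, (L i).le x y) ∧ Nonempty (G ≃* (Λ ≃o Λ)) := by
  have : Finite (Shrink.{0} G) := Finite.of_equiv G (equivShrink.{0} G)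
  obtain ⟨V, hV, hl, L, h, ⟨φ⟩⟩ := Pool.Agent.Lib.MP_89b4f4_co.lattice_universal (Shrink.{0} G)
  exact ⟨V, hV, hl, L, h, ⟨(Shrink.mulEquiv.{0} (α := G)).symm.trans φ⟩⟩

end Pool.Agent.Results.MP_89b4f4_co.Lattice
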