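import Pool.Agent.Lib.MP_89b4f4_co.Frucht

set_option autoImplicit false

namespace Pool.Agent.Results.MP_89b4f4_co.Universal

universe u

/-- Every finite group is the automorphism group of a finite comparability graph of a partial
order that is the intersection of three linear orders. -/
theorem result (G : Type u) [Group G] [Finite G] :
    ∃ (V : Type) (_ : Finite V) (X : SimpleGraph V),
      (∃ (P : PartialOrder V) (L : Fin 3 → LinearOrder V),
        (∀ u v, X.Adj u v ↔ P.lt u v ∨ P.lt v u) ∧ ∀ u v, P.le u v ↔ ∀ i, (L i).le u v) ∧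
      Nonempty (G ≃* (X ≃g X)) := by
  have : Finite (Shrink.{0} G) := Finite.of_equiv G (equivShrink.{0} G)
  obtain ⟨V, hV, X, h, ⟨φ⟩⟩ := Pool.Agent.Lib.MP_89b4f4_co.universal (Shrink.{0} G)
  exact ⟨V, hV, X, h, ⟨(Shrink.mulEquiv.{0} (α := G)).symm.trans φ⟩⟩

end Pool.Agent.Results.MP_89b4f4_co.Universal
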